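import Pool.Agent.H20.G.R_pool_sql_team_seeded_63374d34.N684.BK.Alg1

/-!
Project BK: lower bounds for Hilbert functions of primes.
-/

set_option autoImplicit false

open MvPolynomial Filter
open scoped ENNReal

namespace Pool.Agent.N684.BK

section
variable {F : Type} [Field F] {N : ℕ}

theorem tb (P : Ideal (MvPolynomial (Fin N) F)) (hP : P.IsPrime) :
    ∃ c : Fin (dimQ P) → Fin N, Function.Injective c ∧
      AlgebraicIndependent F (fun e => Ideal.Quotient.mk P (X (c e))) := by
  classical
  let B := MvPolynomial (Fin N) F ⧸ P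
  have hB : IsDomain B := Ideal.Quotient.isDomain P
  let x : Fin N → B := fun i => Ideal.Quotient.mkₐ F P (X i)
  have hadj : ∀ f : B, f ∈ Algebra.adjoin F (Set.range x) := by
    intro f
    obtain ⟨f, rfl⟩ := Ideal.Quotient.mkₐ_surjective F P f
    have h1 : Ideal.Quotient.mkₐ F P = aeval x := by
      ext j
      simp [x]
    rw [h1, Algebra.adjoin_range_eq_range_aeval]
    exact ⟨f, rfl⟩
  have halg : Algebra.IsAlgebraic (Algebra.adjoin F (Set.range x)) B :=
    ⟨fun f => isAlgebraic_algebraMap (⟨f, hadj f⟩ : Algebra.adjoin F (Set.range x))⟩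
  obtain ⟨t, hts, ht⟩ := exists_isTranscendenceBasis_subset (R := F) (A := B) (Set.range x)
  have hc : ∀ e : t, ∃ j, x j = e := fun e => hts e.2
  choose c hc using hc
  have hcinj : Function.Injective c := by
    intro e e' hee
    exact Subtype.ext (by rw [← hc e, ← hc e', hee])
  have htfin : Finite t := Finite.of_injective c hcinj
  have : Fintype t := Fintype.ofFinite t
  have hd : dimQ P = Fintype.card t := by
    unfold dimQ
    rw [← ht.cardinalMk_eq_trdeg]
    simp
  let φ : Fin (dimQ P) ≃ t := (finCongr hd).trans (Fintype.equivFin t).symm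
  refine ⟨fun e => c (φ e), fun a b h => φ.injective (hcinj h), ?_⟩
  have h2 := ht.1.comp φ φ.injective
  convert h2 using 1
  funext e
  exact hc (φ e)

theorem gl (M : Submodule F (MvPolynomial (Fin N) F)) [Module.Finite F M]
    (P : Ideal (MvPolynomial (Fin N) F)) {ι : Type} [Fintype ι] (m : ι → MvPolynomial (Fin N) F)
    (hm : ∀ i, m i ∈ M) (hli : LinearIndependent F (fun i => Ideal.Quotient.mk P (m i))) :
    Fintype.card ι + Module.finrank F ↥(M ⊓ P.restrictScalars F) ≤ Module.finrank F M ∧
    Fintype.card ι ≤ Module.finrank F (M.map (Ideal.Quotient.mkₐ F P).toLinearMap) := by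
  set φ := (Ideal.Quotient.mkₐ F P).toLinearMap with hφ
  have h1 := LinearMap.finrank_range_add_finrank_ker (φ.domRestrict M)
  have h2 : LinearMap.range (φ.domRestrict M) = M.map φ := by
    rw [LinearMap.range_domRestrict]
  rw [h2] at h1
  have h3 : Fintype.card ι ≤ Module.finrank F (M.map φ) := by
    have h4 : ∀ i, Ideal.Quotient.mk P (m i) ∈ M.map φ := fun i => ⟨m i, hm i, rfl⟩
    have h5 : LinearIndependent F (fun i => (⟨_, h4 i⟩ : M.map φ)) :=
      LinearIndependent.of_comp (M.map φ).subtype hli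
    exact h5.fintype_card_le_finrank
  have h4 : Module.finrank F ↥(M ⊓ P.restrictScalars F) ≤
      Module.finrank F (LinearMap.ker (φ.domRestrict M)) := by
    refine LinearMap.finrank_le_finrank_of_injective
      (f := ((Submodule.inclusion (inf_le_left : M ⊓ P.restrictScalars F ≤ M)).codRestrict
        (LinearMap.ker (φ.domRestrict M)) ?_)) ?_
    · intro x
      rw [LinearMap.mem_ker]
      exact Ideal.Quotient.eq_zero_iff_mem.2 x.2.2
    · intro x y hxy
      have := congrArg (fun z => ((z : M) : MvPolynomial (Fin N) F)) (congrArg Subtype.val hxy)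
      exact Subtype.ext this
  exact ⟨by omega, h3⟩

theorem cd_of {wt : Fin N → ℕ} (hwt : ∀ i, 1 ≤ wt i) {K s h : ℕ}
    {P : Ideal (MvPolynomial (Fin N) F)} {U : Submodule F (MvPolynomial (Fin N) F)}
    {ι : Type} [Fintype ι] (m : ι → MvPolynomial (Fin N) F) (hm : ∀ i, m i ∈ PW F wt K)
    (hli : LinearIndependent F (fun i => Ideal.Quotient.mk P (m i)))
    (hU : U ≤ PW F wt K) (hU2 : Module.finrank F (PW F wt K) ≤ Module.finrank F U + s)
    (hh : h + s ≤ Fintype.card ι) : Cd U P h := by
  have := PW_finite (F := F) wt hwt K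
  have h1 := (gl (PW F wt K) P m hm hli).1
  have h2 : Module.finrank F ↥(U ⊓ P.restrictScalars F) ≤
      Module.finrank F ↥(PW F wt K ⊓ P.restrictScalars F) := by
    have : Module.Finite F ↥(PW F wt K ⊓ P.restrictScalars F) :=
      Submodule.finiteDimensional_of_le inf_le_left
    exact Submodule.finrank_mono (inf_le_inf_right _ hU)
  unfold Cd
  omega

/-- the exponents -/
noncomputable def vS {d n : ℕ} (s : Sym (Option (Fin d)) n) : Fin d →₀ ℕ :=
  Finsupp.equivFunOnFinite.symm (fun e => s.1.count (some e))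

theorem vS_apply {d n : ℕ} (s : Sym (Option (Fin d)) n) (e : Fin d) :
    vS s e = s.1.count (some e) := rfl

theorem vS_sum {d n : ℕ} (s : Sym (Option (Fin d)) n) :
    s.1.count none + ∑ e, vS s e = n := by
  have h1 : ∑ a : Option (Fin d), s.1.count a = Multiset.card s.1 :=
    Multiset.sum_count_eq_card (fun a _ => Finset.mem_univ a)
  rw [Fintype.sum_option] at h1
  rw [s.2] at h1
  exact h1

theorem vS_inj {d n : ℕ} : Function.Injective (vS : Sym (Option (Fin d)) n → _) := by
  intro s s' h
  apply Subtype.ext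
  rw [Multiset.ext]
  have h1 : ∀ e, s.1.count (some e) = s'.1.count (some e) := fun e => by
    rw [← vS_apply, ← vS_apply, h]
  have h2 := vS_sum s
  have h3 := vS_sum s'
  rw [h] at h2
  intro a
  rcases a with _ | e
  · omega
  · exact h1 e

theorem mono_mem {d n : ℕ} {wt : Fin N → ℕ} {M K : ℕ} (hwt : ∀ i, wt i ≤ M) (hK : M * n ≤ K)
    (c : Fin d → Fin N) (s : Sym (Option (Fin d)) n) :
    (rename c (monomial (vS s) (1 : F)) : MvPolynomial (Fin N) F) ∈ PW F wt K := by
  classical
  rw [rename_monomial, mem_PW]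
  intro m hm
  have hm' : m = Finsupp.mapDomain c (vS s) := by
    by_contra h
    rw [mem_support_iff, coeff_monomial, if_neg (Ne.symm h)] at hm
    exact hm rfl
  have h1 : wd wt m = ∑ e, wt (c e) * vS s e := by
    have h2 : wd wt m = m.sum fun i a => wt i * a := by
      rw [Finsupp.sum_fintype _ _ (fun i => by simp)]
      rfl
    rw [h2, hm', Finsupp.sum_mapDomain_index (fun _ => by simp) (fun _ _ _ => by ring),
      Finsupp.sum_fintype _ _ (fun i => by simp)]
  rw [h1]
  calc ∑ e, wt (c e) * vS s e ≤ ∑ e, M * vS s e :=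
        Finset.sum_le_sum fun e _ => Nat.mul_le_mul_right _ (hwt _)
    _ = M * ∑ e, vS s e := by rw [Finset.mul_sum]
    _ ≤ M * n := Nat.mul_le_mul_left _ (by have := vS_sum s; omega)
    _ ≤ K := hK

theorem mono_li {d n : ℕ} {P : Ideal (MvPolynomial (Fin N) F)} {c : Fin d → Fin N}
    (h : AlgebraicIndependent F (fun e => Ideal.Quotient.mk P (X (c e)))) :
    LinearIndependent F (fun s : Sym (Option (Fin d)) n =>
      Ideal.Quotient.mk P (rename c (monomial (vS s) (1 : F)))) := by
  have h2 : LinearIndependent F (fun m : Fin d →₀ ℕ =>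
      aeval (fun e => Ideal.Quotient.mk P (X (c e))) (monomial m (1 : F))) := by
    have h3 := (MvPolynomial.basisMonomials (Fin d) F).linearIndependent.map'
      (aeval (fun e => Ideal.Quotient.mk P (X (c e)))).toLinearMap
      (LinearMap.ker_eq_bot.mpr h)
    rw [MvPolynomial.coe_basisMonomials] at h3
    exact h3
  have h4 := h2.comp (vS : Sym (Option (Fin d)) n → _) vS_inj
  convert h4 using 1
  funext s
  simp only [Function.comp_apply]
  have h5 : ∀ p : MvPolynomial (Fin d) F, Ideal.Quotient.mk P (rename c p) =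
      aeval (fun e => Ideal.Quotient.mk P (X (c e))) p := by
    intro p
    have h6 : ((Ideal.Quotient.mkₐ F P).comp (rename c)) =
        aeval (fun e => Ideal.Quotient.mk P (X (c e))) := by
      ext e
      simp
    rw [← h6]
    rfl
  exact h5 _

end

theorem LOW : S_LOW := by
  intro F _ N M wt hwt P hP
  obtain ⟨d, hd⟩ : ∃ d, d = dimQ P := ⟨_, rfl⟩
  have htb := tb P hP
  rw [← hd] at htb ⊢
  obtain ⟨c, hc, hci⟩ := htb
  have key : ∀ K : ℕ, K ^ d ≤ M ^ d * (d.factorial * hil wt P K) := by
    intro K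
    have h1 : ∀ n : ℕ, M * n ≤ K → (n + 1) ^ d ≤ d.factorial * hil wt P K := by
      intro n hn
      have := PW_finite (F := F) wt (fun i => (hwt i).1) K
      have h2 := (gl (PW F wt K) P (fun s : Sym (Option (Fin d)) n =>
        rename c (monomial (vS s) (1 : F))) (mono_mem (fun i => (hwt i).2) hn c)
        (mono_li hci)).2
      rw [Sym.card_sym_eq_choose, Fintype.card_option, Fintype.card_fin] at h2
      have h3 : d + 1 + n - 1 = n + d := by omega
      rw [h3, Nat.choose_symm_add] at h2
      calc (n + 1) ^ d ≤ (n + 1).ascFactorial d := Nat.pow_succ_le_ascFactorial _ _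
        _ = d.factorial * (n + d).choose d := Nat.ascFactorial_eq_factorial_mul_choose _ _
        _ ≤ _ := Nat.mul_le_mul_left _ h2
    rcases Nat.eq_zero_or_pos M with hM | hM
    · have hd0 : d = 0 := by
        by_contra h
        have h5 := hwt (c ⟨0, Nat.pos_of_ne_zero h⟩)
        omega
      have h2 := h1 0 (by omega)
      rw [hd0] at h2 ⊢
      simpa using h2
    · have h2 := h1 (K / M) (Nat.mul_div_le K M)
      calc K ^ d ≤ (M * (K / M + 1)) ^ d :=
            Nat.pow_le_pow_left (Nat.lt_mul_div_succ K hM).le _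
        _ = M ^ d * (K / M + 1) ^ d := Nat.mul_pow _ _ _
        _ ≤ _ := Nat.mul_le_mul_left _ h2
  have hMd : (M : ℝ≥0∞) ^ d ≠ 0 := by
    rcases Nat.eq_zero_or_pos d with h0 | h0
    · rw [h0, pow_zero]
      exact one_ne_zero
    · have h5 := hwt (c ⟨0, h0⟩)
      have : (M : ℝ≥0∞) ≠ 0 := by
        have : M ≠ 0 := by omega
        exact_mod_cast this
      exact pow_ne_zero _ this
  have hdf : (d.factorial : ℝ≥0∞) ≠ 0 := by exact_mod_cast (Nat.factorial_ne_zero d)
  have hMt : (M : ℝ≥0∞) ^ d ≠ ⊤ := ENNReal.pow_ne_top (ENNReal.natCast_ne_top M)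
  have hft : (d.factorial : ℝ≥0∞) ≠ ⊤ := ENNReal.natCast_ne_top _
  unfold Deg
  have hlim : ((M : ℝ≥0∞) ^ d * (d.factorial : ℝ≥0∞))⁻¹ ≤
      liminf (fun K : ℕ => (hil wt P K : ℝ≥0∞) / (K : ℝ≥0∞) ^ d) atTop := by
    refine le_liminf_of_le (by isBoundedDefault) ?_
    filter_upwards [eventually_gt_atTop 0] with K hK
    have hK0 : (K : ℝ≥0∞) ^ d ≠ 0 := by
      have : (K : ℝ≥0∞) ≠ 0 := by exact_mod_cast hK.ne'
      exact pow_ne_zero _ this
    have hKt : (K : ℝ≥0∞) ^ d ≠ ⊤ := ENNReal.pow_ne_top (ENNReal.natCast_ne_top K)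
    rw [ENNReal.le_div_iff_mul_le (Or.inl hK0) (Or.inl hKt), mul_comm, ← div_eq_mul_inv]
    refine ENNReal.div_le_of_le_mul' ?_
    have := key K
    rw [← mul_assoc] at this
    exact_mod_cast this
  calc (1 : ℝ≥0∞) = (M : ℝ≥0∞) ^ d * (d.factorial : ℝ≥0∞) *
        ((M : ℝ≥0∞) ^ d * (d.factorial : ℝ≥0∞))⁻¹ :=
        (ENNReal.mul_inv_cancel (mul_ne_zero hMd hdf) (ENNReal.mul_ne_top hMt hft)).symm
    _ ≤ (M : ℝ≥0∞) ^ d * (d.factorial : ℝ≥0∞) *
        liminf (fun K : ℕ => (hil wt P K : ℝ≥0∞) / (K : ℝ≥0∞) ^ d) atTop := by gcongr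
    _ = _ := by rw [mul_assoc]

theorem POS : S_POS := by
  intro F _ N P hP hd
  obtain ⟨c, hc, hci⟩ := tb P hP
  exact ⟨c ⟨0, by omega⟩, hci.transcendental ⟨0, by omega⟩⟩

theorem QU : S_QU := by
  intro F _ N K s d wt hwt hwt2 P U hP hd hU hU2 h hh
  obtain ⟨c, hc, hci⟩ := tb P hP
  let c' : Fin d → Fin N := fun e => c (Fin.castLE hd e)
  have hci' : AlgebraicIndependent F (fun e => Ideal.Quotient.mk P (X (c' e))) :=
    hci.comp (Fin.castLE hd) (Fin.castLE_injective hd)
  refine cd_of (K := K) hwt (fun s : Sym (Option (Fin d)) 2 =>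
    rename c' (monomial (vS s) (1 : F))) ?_ (mono_li hci') hU hU2 ?_
  · intro s
    refine mono_mem (M := K / 2) (fun i => ?_) (by omega) c' s
    have := hwt2 i
    omega
  · rw [Sym.card_sym_eq_choose, Fintype.card_option, Fintype.card_fin]
    exact hh

theorem TR : S_TR := by
  intro F _ N D K s wt hwt P U a hP ha haK hU hU2 h hh
  classical
  refine cd_of (K := K) hwt (fun i : Fin (D + 1) => (X a : MvPolynomial (Fin N) F) ^ (i : ℕ))
    ?_ ?_ hU hU2 (by rw [Fintype.card_fin]; exact hh)
  · intro i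
    have h1 : (X a : MvPolynomial (Fin N) F) ^ (i : ℕ) =
        monomial (Finsupp.single a (i : ℕ)) 1 := by
      rw [X_pow_eq_monomial]
    rw [h1, mem_PW]
    intro m hm
    have hm' : m = Finsupp.single a (i : ℕ) := by
      by_contra h
      rw [mem_support_iff, coeff_monomial, if_neg (Ne.symm h)] at hm
      exact hm rfl
    rw [hm']
    unfold wd
    rw [Finset.sum_eq_single a]
    · rw [Finsupp.single_eq_same]
      have := i.2
      exact (Nat.mul_le_mul_left _ (by omega)).trans haK
    · intro b _ hb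
      rw [Finsupp.single_eq_of_ne hb]
      simp
    · simp
  · have h1 : LinearIndependent F (fun i : ℕ => (Ideal.Quotient.mk P (X a)) ^ i) := by
      have h3 := (Polynomial.basisMonomials F).linearIndependent.map'
        (Polynomial.aeval (Ideal.Quotient.mk P (X a))).toLinearMap
        (LinearMap.ker_eq_bot.mpr (transcendental_iff_injective.1 ha))
      rw [Polynomial.coe_basisMonomials] at h3
      have h4 : (fun i : ℕ => (Ideal.Quotient.mk P (X a)) ^ i) =
          (Polynomial.aeval (Ideal.Quotient.mk P (X a))).toLinearMap ∘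
            fun s => (Polynomial.monomial s) (1 : F) := by
        funext i
        rw [Function.comp_apply, AlgHom.toLinearMap_apply, Polynomial.aeval_monomial, map_one,
          one_mul]
      rw [h4]
      exact h3
    have h2 := h1.comp (fun i : Fin (D + 1) => (i : ℕ)) Fin.val_injective
    convert h2 using 1
    funext i
    simp

end Pool.Agent.N684.BK
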