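import Mathlib

/-!
Project BK (helper684): Turán numbers of `K_{s,t}` for `t ≥ 2 ^ (9 s / 4 + o(s))`.
Definitions and statements of the independent parts.
-/

set_option autoImplicit false

open MvPolynomial Filter
open scoped ENNReal

namespace Pool.Agent.N684.BK

/-- weighted degree of an exponent -/
def wd {N : ℕ} (wt : Fin N → ℕ) (m : Fin N →₀ ℕ) : ℕ := ∑ i, wt i * m i

section Defs
variable {F : Type} [Field F] {N : ℕ}

/-- polynomials of weighted degree at most `K` -/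
noncomputable def PW (F : Type) [Field F] {N : ℕ} (wt : Fin N → ℕ) (K : ℕ) :
    Submodule F (MvPolynomial (Fin N) F) :=
  restrictSupport F {m | wd wt m ≤ K}

/-- the residue classes modulo `J` of the polynomials of weighted degree at most `K` -/
noncomputable def lev (wt : Fin N → ℕ) (J : Ideal (MvPolynomial (Fin N) F)) (K : ℕ) :
    Submodule F (MvPolynomial (Fin N) F ⧸ J) :=
  (PW F wt K).map (Ideal.Quotient.mkₐ F J).toLinearMap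

/-- the Hilbert function -/
noncomputable def hil (wt : Fin N → ℕ) (J : Ideal (MvPolynomial (Fin N) F)) (K : ℕ) : ℕ :=
  Module.finrank F (lev wt J K)

/-- the degree with respect to the dimension `w` -/
noncomputable def Deg (wt : Fin N → ℕ) (w : ℕ) (J : Ideal (MvPolynomial (Fin N) F)) : ℝ≥0∞ :=
  (w.factorial : ℝ≥0∞) *
    Filter.liminf (fun K : ℕ => (hil wt J K : ℝ≥0∞) / (K : ℝ≥0∞) ^ w) atTop

/-- the transcendence degree of the residue class ring -/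
noncomputable def dimQ (J : Ideal (MvPolynomial (Fin N) F)) : ℕ :=
  Cardinal.toNat (Algebra.trdeg F (MvPolynomial (Fin N) F ⧸ J))

/-- the ideal vanishes at the point -/
def Van (P : Ideal (MvPolynomial (Fin N) F)) (y : Fin N → F) : Prop := ∀ p ∈ P, eval y p = 0

/-- the codimension of `U ∩ P` in `U` is at least `h` -/
def Cd (U : Submodule F (MvPolynomial (Fin N) F)) (P : Ideal (MvPolynomial (Fin N) F))
    (h : ℕ) : Prop :=
  h + Module.finrank F ↥(U ⊓ P.restrictScalars F) ≤ Module.finrank F U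

/-- the evaluations at the points `X i` are linearly independent on `W` -/
def Ind {ι : Type} (W : Submodule F (MvPolynomial (Fin N) F)) (X : ι → Fin N → F) : Prop :=
  Function.Surjective (fun (w : W) (i : ι) => eval (X i) (w : MvPolynomial (Fin N) F))

/-- minimally dependent families of distinct points -/
def Circ {j : ℕ} (W : Submodule F (MvPolynomial (Fin N) F)) (X : Fin j → Fin N → F) : Prop :=
  Function.Injective X ∧ ¬ Ind W X ∧ ∀ i : Fin j, Ind W (fun l : {l : Fin j // l ≠ i} => X l)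

end Defs

/-- the weights: `D` for the first `s + e` variables, `1` for the last `k` ones -/
def wD (s e k D : ℕ) : Fin (s + e + k) → ℕ := fun i => if (i : ℕ) < s + e then D else 1

/-- DIM: components of hypersurface sections -/
def S_DIM : Prop := ∀ (F : Type) [Field F] (N : ℕ) (P Q : Ideal (MvPolynomial (Fin N) F))
  (f : MvPolynomial (Fin N) F), P.IsPrime → f ∉ P →
  Q ∈ (P ⊔ Ideal.span {f}).minimalPrimes → dimQ Q + 1 = dimQ P

/-- MONO: dimensions of primes decrease -/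
def S_MONO : Prop := ∀ (F : Type) [Field F] (N : ℕ) (P Q : Ideal (MvPolynomial (Fin N) F)),
  P.IsPrime → Q.IsPrime → P ≤ Q → dimQ Q ≤ dimQ P

/-- MUL: Hilbert function of a hypersurface section -/
def S_MUL : Prop := ∀ (F : Type) [Field F] (N : ℕ) (wt : Fin N → ℕ), (∀ i, 1 ≤ wt i) →
  ∀ (M : ℕ) (P : Ideal (MvPolynomial (Fin N) F)) (f : MvPolynomial (Fin N) F),
  P.IsPrime → f ∉ P → f ∈ PW F wt M →
  ∀ K : ℕ, hil wt (P ⊔ Ideal.span {f}) (K + M) + hil wt P K ≤ hil wt P (K + M)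

/-- SUM: Hilbert functions of several components -/
def S_SUM : Prop := ∀ (F : Type) [Field F] (N : ℕ) (wt : Fin N → ℕ), (∀ i, 1 ≤ wt i) →
  ∀ (J : Ideal (MvPolynomial (Fin N) F)) (s : Finset (Ideal (MvPolynomial (Fin N) F))),
  (∀ Q ∈ s, Q.IsPrime ∧ J ≤ Q) → (∀ Q ∈ s, ∀ Q' ∈ s, Q ≤ Q' → Q = Q') →
  ∃ c : ℕ, ∀ K : ℕ, ∑ Q ∈ s, hil wt Q K ≤ hil wt J (K + c)

/-- BEZ: sharp weighted Bezout inequality -/
def S_BEZ : Prop := ∀ (F : Type) [Field F] (N : ℕ) (wt : Fin N → ℕ), (∀ i, 1 ≤ wt i) →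
  ∀ (w M : ℕ) (P : Ideal (MvPolynomial (Fin N) F)) (f : MvPolynomial (Fin N) F)
  (s : Finset (Ideal (MvPolynomial (Fin N) F))),
  P.IsPrime → f ∉ P → f ∈ PW F wt M → 1 ≤ M →
  (∀ Q ∈ s, Q.IsPrime ∧ P ≤ Q ∧ f ∈ Q) → (∀ Q ∈ s, ∀ Q' ∈ s, Q ≤ Q' → Q = Q') →
  ∑ Q ∈ s, Deg wt w Q ≤ (M : ℝ≥0∞) * Deg wt (w + 1) P

/-- LOW: lower bound for the degree of a prime -/
def S_LOW : Prop := ∀ (F : Type) [Field F] (N M : ℕ) (wt : Fin N → ℕ),
  (∀ i, 1 ≤ wt i ∧ wt i ≤ M) → ∀ P : Ideal (MvPolynomial (Fin N) F), P.IsPrime →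
  1 ≤ (M : ℝ≥0∞) ^ dimQ P * Deg wt (dimQ P) P

/-- TOP: the zero ideal -/
def S_TOP : Prop := ∀ (F : Type) [Field F] (N : ℕ) (wt : Fin N → ℕ), (∀ i, 1 ≤ wt i) →
  dimQ (⊥ : Ideal (MvPolynomial (Fin N) F)) = N ∧
  Deg wt N (⊥ : Ideal (MvPolynomial (Fin N) F)) * ∏ i, (wt i : ℝ≥0∞) ≤ 1

/-- RAT: coordinates which are algebraic at a rational point are constant -/
def S_RAT : Prop := ∀ (F : Type) [Field F] (N : ℕ) (P : Ideal (MvPolynomial (Fin N) F))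
  (y : Fin N → F) (a : Fin N), P.IsPrime → Van P y →
  IsAlgebraic F (Ideal.Quotient.mk P (X a)) → X a - C (y a) ∈ P

/-- PT: a prime of dimension zero vanishes at one rational point at most -/
def S_PT : Prop := ∀ (F : Type) [Field F] (N : ℕ) (P : Ideal (MvPolynomial (Fin N) F))
  (y y' : Fin N → F), P.IsPrime → dimQ P = 0 → Van P y → Van P y' → y = y'

/-- TR: powers of a transcendental coordinate -/
def S_TR : Prop := ∀ (F : Type) [Field F] (N D K s : ℕ) (wt : Fin N → ℕ), (∀ i, 1 ≤ wt i) →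
  ∀ (P : Ideal (MvPolynomial (Fin N) F)) (U : Submodule F (MvPolynomial (Fin N) F)) (a : Fin N),
  P.IsPrime → Transcendental F (Ideal.Quotient.mk P (X a)) → wt a * D ≤ K →
  U ≤ PW F wt K → Module.finrank F (PW F wt K) ≤ Module.finrank F U + s →
  ∀ h, h + s ≤ D + 1 → Cd U P h

/-- POS: a prime of positive dimension has a transcendental coordinate -/
def S_POS : Prop := ∀ (F : Type) [Field F] (N : ℕ) (P : Ideal (MvPolynomial (Fin N) F)),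
  P.IsPrime → 1 ≤ dimQ P → ∃ a : Fin N, Transcendental F (Ideal.Quotient.mk P (X a))

/-- QU: quadratic monomials in algebraically independent coordinates -/
def S_QU : Prop := ∀ (F : Type) [Field F] (N K s d : ℕ) (wt : Fin N → ℕ), (∀ i, 1 ≤ wt i) →
  (∀ i, 2 * wt i ≤ K) → ∀ (P : Ideal (MvPolynomial (Fin N) F))
  (U : Submodule F (MvPolynomial (Fin N) F)), P.IsPrime → d ≤ dimQ P →
  U ≤ PW F wt K → Module.finrank F (PW F wt K) ≤ Module.finrank F U + s →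
  ∀ h, h + s ≤ (d + 2).choose 2 → Cd U P h

/-- RCI: random complete intersections -/
def S_RCI : Prop := ∀ (N M d₀ : ℕ), ∃ c : ℕ → ℕ, ∀ (F : Type) [Field F] [Fintype F]
  (wt : Fin N → ℕ), (∀ i, 1 ≤ wt i ∧ wt i ≤ M) → ∀ (k h : ℕ)
  (P : Ideal (MvPolynomial (Fin N) F)), P.IsPrime → dimQ P = k →
  ∀ (U : Fin k → Submodule F (MvPolynomial (Fin N) F)) (d : Fin k → ℕ),
  (∀ i, U i ≤ PW F wt (d i)) → (∀ i, 1 ≤ d i ∧ d i ≤ d₀) → ∀ B : (∀ i, U i) → Prop,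
  (∀ w : ∀ i, U i, ¬ B w → ∀ (i : Fin k) (Q : Ideal (MvPolynomial (Fin N) F)), Q.IsPrime →
    P ≤ Q → (∀ l, l < i → (w l : MvPolynomial (Fin N) F) ∈ Q) → dimQ Q + (i : ℕ) = k →
    Cd (U i) Q h ∨ ∀ y, ¬ Van Q y) →
  (Fintype.card F : ℝ≥0∞) ^ h * (Nat.card {w : ∀ i, U i // ¬ B w ∧
    Deg wt k P * ∏ i, (d i : ℝ≥0∞) < (Set.ncard {y : Fin N → F | Van P y ∧
      ∀ i, eval y (w i : MvPolynomial (Fin N) F) = 0} : ℝ≥0∞)} : ℝ≥0∞) ≤
    c k * Deg wt k P * ∏ i, (Nat.card (U i) : ℝ≥0∞)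

/-- FE: random polynomials have few excess components -/
def S_FE : Prop := ∀ (N M d₀ : ℕ), ∃ c : ℕ → ℕ, ∀ (F : Type) [Field F] [Fintype F]
  (wt : Fin N → ℕ), (∀ i, 1 ≤ wt i ∧ wt i ≤ M) → ∀ (i h μ δ : ℕ)
  (P : Ideal (MvPolynomial (Fin N) F)), P.IsPrime →
  ∀ U : Fin i → Submodule F (MvPolynomial (Fin N) F), (∀ l, U l ≤ PW F wt d₀) →
  (∀ Q : Ideal (MvPolynomial (Fin N) F), Q.IsPrime → P ≤ Q → δ ≤ dimQ Q → ∀ l, Cd (U l) Q h) →
  (Fintype.card F : ℝ≥0∞) ^ (μ * h) * (Nat.card {w : ∀ l, U l //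
    ∃ Q : Ideal (MvPolynomial (Fin N) F), Q.IsPrime ∧ P ≤ Q ∧
      (∀ l, (w l : MvPolynomial (Fin N) F) ∈ Q) ∧ δ ≤ dimQ Q ∧ dimQ P + μ ≤ dimQ Q + i} :
      ℝ≥0∞) ≤ c i * Deg wt (dimQ P) P * ∏ l, (Nat.card (U l) : ℝ≥0∞)

/-- FIB: the fibres over the rational points of the space of the last `k` coordinates -/
def S_FIB : Prop := ∀ (F : Type) [Field F] (m k : ℕ) (wt : Fin (m + k) → ℕ), (∀ i, 1 ≤ wt i) →
  ∀ y : Fin (m + k) → F, ∃ P : Ideal (MvPolynomial (Fin (m + k)) F), P.IsPrime ∧ dimQ P = m ∧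
    Deg wt m P ≤ (m.factorial : ℝ≥0∞) * 2 ^ m ∧
    (∀ Q : Ideal (MvPolynomial (Fin (m + k)) F),
      (∀ a : Fin (m + k), m ≤ (a : ℕ) → X a - C (y a) ∈ Q) → P ≤ Q)

/-- COM: common zeros of random polynomials -/
def S_COM : Prop := ∀ (s e k : ℕ), 1 ≤ s → 2 * (s ^ 2 + 2 + k + k * s) ≤ k * (k + 3) * (k + 2) →
  ∃ C : ℕ, ∀ (F : Type) [Field F] [Fintype F]
  (U : Fin (s + e + k) → Submodule F (MvPolynomial (Fin (s + e + k)) F)),
  (∀ i : Fin (s + e + k), (i : ℕ) < s + e →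
    U i ≤ PW F (wD s e k (s ^ 2 + s + 2)) (2 * (s ^ 2 + s + 2)) ∧
    Module.finrank F (PW F (wD s e k (s ^ 2 + s + 2)) (2 * (s ^ 2 + s + 2))) ≤
      Module.finrank F (U i) + s) →
  (∀ i : Fin (s + e + k), s + e ≤ (i : ℕ) →
    U i ≤ PW F (wD s e k (s ^ 2 + s + 2)) ((s ^ 2 + s + 2) ^ 2) ∧
    Module.finrank F (PW F (wD s e k (s ^ 2 + s + 2)) ((s ^ 2 + s + 2) ^ 2)) ≤
      Module.finrank F (U i) + s) →
  Fintype.card F ^ (s ^ 2 + 2) * Nat.card {w : ∀ i, U i //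
    2 ^ (s + e) * (s ^ 2 + s + 2) ^ (2 * k) < Set.ncard {y : Fin (s + e + k) → F |
      ∀ i, eval y (w i : MvPolynomial (Fin (s + e + k)) F) = 0}} ≤
    C * ∏ i, Nat.card (U i)

/-- ROWS: matrices whose rows span an isotropic subspace with the all-ones vector -/
def S_ROWS : Prop := ∀ (F : Type) [Field F] [Fintype F] (N j r : ℕ) (c : Fin j → F),
  (∀ i, c i ≠ 0) →
  Nat.card {A : Fin N → Fin j → F //
    (∀ u ∈ Submodule.span F (insert 1 (Set.range A)),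
      ∀ v ∈ Submodule.span F (insert 1 (Set.range A)), ∑ i, c i * u i * v i = 0) ∧
    Module.finrank F (Submodule.span F (insert 1 (Set.range A))) = r + 1} *
    Fintype.card F ^ (r * (r + 1) / 2 + r * (r + 1)) ≤
  2 ^ N * Fintype.card F ^ (r * j + (r + 1) * N)

/-- CIRC: number of minimally dependent families -/
def S_CIRC : Prop := ∀ (s e k j : ℕ), 2 ≤ s → 5 * s ≤ 4 * e → 6 ≤ k → j ≤ s → ∃ C : ℕ,
  ∀ (F : Type) [Field F] [Fintype F] (W : Submodule F (MvPolynomial (Fin (s + e + k)) F)),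
  1 ∈ W → (∀ a, X a ∈ W) → (∀ a b, X a * X b ∈ W) →
  Nat.card {A : Fin j → Fin (s + e + k) → F // Circ W A} * Fintype.card F ^ 2 ≤
    C * Fintype.card F ^ ((j - 1) * (e + k) + s)

/-- FM: the first moment argument -/
def S_FM : Prop := ∀ (s m C : ℕ), 2 ≤ s → ∃ q₀ : ℕ, ∀ q : ℕ, q₀ ≤ q →
  ∀ (Pt Ω₁ Ω₂ Ci : Type) [Fintype Pt] [Fintype Ω₁] [Fintype Ω₂] [Fintype Ci]
  [Nonempty Ω₁] [Nonempty Ω₂] (V : Ω₁ → Set Pt) (R : Ω₂ → Pt → Pt → Prop) (S : Ci → Set Pt)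
  (bad : Ω₁ → Ω₂ → Prop),
  Fintype.card Pt = q ^ (s + m) →
  (∀ x, Nat.card {ω // x ∈ V ω} * q ^ m = Fintype.card Ω₁) →
  (∀ x y, x ≠ y → Nat.card {ω // x ∈ V ω ∧ y ∈ V ω} * q ^ (2 * m) = Fintype.card Ω₁) →
  (∀ x y, Nat.card {ω // R ω x y} * q = Fintype.card Ω₂) →
  (∀ c, (S c).Nonempty) →
  (q ^ 2 * ∑ c, Nat.card {ω // S c ⊆ V ω} ≤ C * q ^ s * Fintype.card Ω₁) →
  (q ^ 2 * Nat.card {ω : Ω₁ × Ω₂ // bad ω.1 ω.2} ≤
    C * Fintype.card Ω₁ * Fintype.card Ω₂) →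
  ∃ ω₁ ω₂, ¬ bad ω₁ ω₂ ∧ ∃ V₀ ⊆ V ω₁, (∀ c, ¬ S c ⊆ V₀) ∧ V₀.ncard ≤ 2 * q ^ s ∧
    q ^ (2 * s - 1) ≤ 4 * Set.ncard {z : Pt × Pt | z.1 ∈ V₀ ∧ z.2 ∈ V₀ ∧ R ω₂ z.1 z.2}

/-- CLEAN: families without minimally dependent subfamilies are independent -/
def S_CLEAN : Prop := ∀ (F : Type) [Field F] (N s : ℕ)
  (W : Submodule F (MvPolynomial (Fin N) F)) (V : Set (Fin N → F)),
  (∀ j : ℕ, j ≤ s → ∀ A : Fin j → Fin N → F, Circ W A → ¬ Set.range A ⊆ V) →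
  ∀ A : Fin s → Fin N → F, Function.Injective A → Set.range A ⊆ V → Ind W A

/-- KST: from a relation without large bicliques to Turán numbers -/
def S_KST : Prop := ∀ (s t n : ℕ) (Pt : Type) (V : Set Pt) (R : Pt → Pt → Prop), 1 ≤ s → s ≤ t →
  V.Finite → 2 * V.ncard ≤ n →
  (∀ A : Fin s → Pt, Function.Injective A → Set.range A ⊆ V →
    Set.ncard {y | y ∈ V ∧ ∀ i, R (A i) y} < t ∧ Set.ncard {y | y ∈ V ∧ ∀ i, R y (A i)} < t) →
  Set.ncard {z : Pt × Pt | z.1 ∈ V ∧ z.2 ∈ V ∧ R z.1 z.2} ≤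
    SimpleGraph.extremalNumber n (completeBipartiteGraph (Fin s) (Fin t))

/-- ALG: the Turán numbers for prime powers -/
def S_ALG : Prop := ∀ (s e k t : ℕ), 2 ≤ s → 5 * s ≤ 4 * e → 6 ≤ k →
  2 * (s ^ 2 + 2 + k + k * s) ≤ k * (k + 3) * (k + 2) →
  2 ^ (s + e) * (s ^ 2 + s + 2) ^ (2 * k) < t → ∃ p₀ : ℕ, ∀ p : ℕ, p₀ ≤ p → p.Prime →
  p ^ (2 * s - 1) ≤ 4 * SimpleGraph.extremalNumber (4 * p ^ s)
    (completeBipartiteGraph (Fin s) (Fin t))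

/-- FIN: all numbers of vertices -/
def S_FIN : Prop := ∀ (s t : ℕ), 2 ≤ s → (∃ p₀ : ℕ, ∀ p : ℕ, p₀ ≤ p → p.Prime →
  p ^ (2 * s - 1) ≤ 4 * SimpleGraph.extremalNumber (4 * p ^ s)
    (completeBipartiteGraph (Fin s) (Fin t))) →
  ∃ c : ℝ, 0 < c ∧ ∀ n : ℕ, 2 ≤ n → c * (n : ℝ) ^ (2 - 1 / (s : ℝ)) ≤
    (SimpleGraph.extremalNumber n (completeBipartiteGraph (Fin s) (Fin t)) : ℝ)

/-- MAIN -/
def S_MAIN : Prop := ∀ (s t : ℕ), 2 ≤ s →
  (2 : ℝ) ^ (9 * (s : ℝ) / 4) * (s : ℝ) ^ (12 * (s : ℝ) ^ (2 / 3 : ℝ) + 38) ≤ t →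
  ∃ c : ℝ, 0 < c ∧ ∀ n : ℕ, 2 ≤ n → c * (n : ℝ) ^ (2 - 1 / (s : ℝ)) ≤
    (SimpleGraph.extremalNumber n (completeBipartiteGraph (Fin s) (Fin t)) : ℝ)

end Pool.Agent.N684.BK
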