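import Pool.Agent.H20.G.R_pool_sql_team_seeded_63374d34.N684.BK.Alg1

/-!
Project BK: the bad event for one family of points.
-/

set_option autoImplicit false

open MvPolynomial

namespace Pool.Agent.N684.BK

section
variable {F : Type} [Field F] {N : ℕ}

/-- the bilinear form -/
noncomputable def bil {n : ℕ} (b : Fin n → MvPolynomial (Fin N) F) (a : Fin n → Fin n → F)
    (x y : Fin N → F) : F :=
  ∑ l, ∑ m, a l m * eval x (b l) * eval y (b m)

theorem bil_swap {n : ℕ} (b : Fin n → MvPolynomial (Fin N) F) (a : Fin n → Fin n → F)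
    (x y : Fin N → F) : bil b (fun l m => a m l) y x = bil b a x y := by
  unfold bil
  rw [Finset.sum_comm]
  refine Finset.sum_congr rfl fun l _ => Finset.sum_congr rfl fun m _ => ?_
  ring

/-- the polynomials of the family -/
noncomputable def gm {n s : ℕ} {W : Submodule F (MvPolynomial (Fin N) F)}
    (b : Module.Basis (Fin n) F W) (A : Fin s → Fin N → F) :
    (Fin n → Fin n → F) →ₗ[F] (Fin s → W) where
  toFun a i := ∑ m, (∑ l, a l m * eval (A i) (b l : MvPolynomial (Fin N) F)) • b m
  map_add' a a' := by
    funext i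
    rw [Pi.add_apply, ← Finset.sum_add_distrib]
    refine Finset.sum_congr rfl fun m _ => ?_
    rw [← add_smul, ← Finset.sum_add_distrib]
    congr 1
    refine Finset.sum_congr rfl fun l _ => ?_
    rw [Pi.add_apply, Pi.add_apply, add_mul]
  map_smul' c a := by
    funext i
    rw [Pi.smul_apply, Finset.smul_sum]
    refine Finset.sum_congr rfl fun m _ => ?_
    rw [smul_smul, RingHom.id_apply, Finset.mul_sum]
    congr 1
    refine Finset.sum_congr rfl fun l _ => ?_
    rw [Pi.smul_apply, Pi.smul_apply, smul_eq_mul, mul_assoc]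

theorem eval_gm {n s : ℕ} {W : Submodule F (MvPolynomial (Fin N) F)}
    (b : Module.Basis (Fin n) F W) (A : Fin s → Fin N → F) (a : Fin n → Fin n → F) (i : Fin s)
    (y : Fin N → F) :
    eval y (gm b A a i : MvPolynomial (Fin N) F) =
      bil (fun l => (b l : MvPolynomial (Fin N) F)) a (A i) y := by
  unfold gm bil
  simp only [LinearMap.coe_mk, AddHom.coe_mk]
  rw [Submodule.coe_sum, map_sum, Finset.sum_comm]
  refine Finset.sum_congr rfl fun m _ => ?_
  rw [Submodule.coe_smul, smul_eval, Finset.sum_mul]

theorem gm_surj {n s : ℕ} {W : Submodule F (MvPolynomial (Fin N) F)}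
    (b : Module.Basis (Fin n) F W) {A : Fin s → Fin N → F} (h : Ind W A) :
    Function.Surjective (gm b A) := by
  intro g
  have h1 : ∀ m : Fin n, ∃ w : W, ∀ i, eval (A i) (w : MvPolynomial (Fin N) F) =
      b.repr (g i) m := by
    intro m
    obtain ⟨w, hw⟩ := h (fun i => b.repr (g i) m)
    exact ⟨w, fun i => congrFun hw i⟩
  choose w hw using h1
  refine ⟨fun l m => b.repr (w m) l, ?_⟩
  funext i
  unfold gm
  simp only [LinearMap.coe_mk, AddHom.coe_mk]
  conv_rhs => rw [← b.sum_repr (g i)]
  refine Finset.sum_congr rfl fun m _ => ?_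
  congr 1
  rw [← hw m i]
  conv_rhs => rw [← b.sum_repr (w m)]
  rw [Submodule.coe_sum, map_sum]
  refine Finset.sum_congr rfl fun l _ => ?_
  rw [Submodule.coe_smul, smul_eval]

end

/-- the statement COM for the families that occur -/
theorem com_apply (hCOM : S_COM) (s e k : ℕ) (hs : 1 ≤ s)
    (hk : 2 * (s ^ 2 + 2 + k + k * s) ≤ k * (k + 3) * (k + 2)) :
    ∃ C : ℕ, ∀ (F : Type) [Field F] [Fintype F]
    (W H : Submodule F (MvPolynomial (Fin (s + e + k)) F)),
    W = PW F (wD s e k (s ^ 2 + s + 2)) (2 * (s ^ 2 + s + 2)) →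
    H = PW F (wD s e k (s ^ 2 + s + 2)) ((s ^ 2 + s + 2) ^ 2) →
    ∀ A : Fin s → Fin (s + e + k) → F, Ind W A →
    Fintype.card F ^ (s ^ 2 + 2) * Nat.card
      {x : ((Fin e → van W A) × (Fin k → van H A)) × (Fin s → W) //
        2 ^ (s + e) * (s ^ 2 + s + 2) ^ (2 * k) < Set.ncard {y : Fin (s + e + k) → F |
          (∀ i, eval y (x.1.1 i : MvPolynomial (Fin (s + e + k)) F) = 0) ∧
          (∀ i, eval y (x.1.2 i : MvPolynomial (Fin (s + e + k)) F) = 0) ∧
          (∀ i, eval y (x.2 i : MvPolynomial (Fin (s + e + k)) F) = 0)}} ≤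
      C * (Nat.card (van W A) ^ e * Nat.card (van H A) ^ k * Nat.card W ^ s) := by
  obtain ⟨C, hC⟩ := hCOM s e k hs hk
  refine ⟨C, ?_⟩
  intro F _ _ W H hW hH A hA
  have hwt : ∀ i, 1 ≤ wD s e k (s ^ 2 + s + 2) i := by
    intro i
    unfold wD
    split_ifs
    · omega
    · exact le_rfl
  have hWf : Module.Finite F W := by rw [hW]; exact PW_finite _ hwt _
  have hHf : Module.Finite F H := by rw [hH]; exact PW_finite _ hwt _
  have hWH : W ≤ H := by
    rw [hW, hH]
    refine PW_mono ?_
    nlinarith [Nat.zero_le (s ^ 2 + s)]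
  have hvW := van_finite W A
  have hvH := van_finite H A
  let E : (Fin s ⊕ Fin e) ⊕ Fin k ≃ Fin (s + e + k) :=
    (Equiv.sumCongr finSumFinEquiv (Equiv.refl _)).trans finSumFinEquiv
  let Us : (Fin s ⊕ Fin e) ⊕ Fin k → Submodule F (MvPolynomial (Fin (s + e + k)) F) :=
    Sum.elim (Sum.elim (fun _ => W) (fun _ => van W A)) (fun _ => van H A)
  have hUf : ∀ z, Module.Finite F (Us z) := by
    rintro ((z | z) | z)
    · exact hWf
    · exact hvW
    · exact hvH
  have hUf2 : ∀ z, Finite (Us z) := fun z => by
    have := hUf z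
    exact finite_sub _
  let U : Fin (s + e + k) → Submodule F (MvPolynomial (Fin (s + e + k)) F) :=
    fun i => Us (E.symm i)
  have hcA : Fintype.card (Fin s) = s := Fintype.card_fin s
  have key := hC F U (by
      intro i hi
      obtain ⟨z, rfl⟩ := E.surjective i
      show Us (E.symm (E z)) ≤ _ ∧ _ ≤ Module.finrank F (Us (E.symm (E z))) + s
      rw [E.symm_apply_apply, ← hW]
      rcases z with (z | z) | z
      · exact ⟨le_rfl, Nat.le_add_right _ _⟩
      · refine ⟨van_le W A, ?_⟩
        have h1 := finrank_van hA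
        rw [hcA] at h1
        exact h1.ge
      · exfalso
        simp [E] at hi) (by
      intro i hi
      obtain ⟨z, rfl⟩ := E.surjective i
      show Us (E.symm (E z)) ≤ _ ∧ _ ≤ Module.finrank F (Us (E.symm (E z))) + s
      rw [E.symm_apply_apply, ← hH]
      rcases z with (z | z) | z
      · exfalso
        have h1 : (z : ℕ) < s := z.2
        simp [E] at hi
        omega
      · exfalso
        have h1 : (z : ℕ) < e := z.2
        simp [E] at hi
        omega
      · refine ⟨van_le H A, ?_⟩
        have h1 := finrank_van (hA.mono hWH)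
        rw [hcA] at h1
        exact h1.ge)
  have hprod : ∏ i, Nat.card (U i) =
      Nat.card (van W A) ^ e * Nat.card (van H A) ^ k * Nat.card W ^ s := by
    have h1 : ∏ i, Nat.card (U i) = ∏ z, Nat.card (Us z) :=
      Equiv.prod_comp E.symm (fun z => Nat.card (Us z))
    rw [h1, Fintype.prod_sum_type, Fintype.prod_sum_type]
    simp only [Us, Sum.elim_inl, Sum.elim_inr, Finset.prod_const, Finset.card_univ,
      Fintype.card_fin]
    ring
  rw [hprod] at key
  refine le_trans (Nat.mul_le_mul_left _ ?_) key
  let v : (((Fin e → van W A) × (Fin k → van H A)) × (Fin s → W)) → ∀ z, Us z := fun x z =>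
    match z with
    | Sum.inl (Sum.inl a) => x.2 a
    | Sum.inl (Sum.inr a) => x.1.1 a
    | Sum.inr a => x.1.2 a
  have hfin : Finite (∀ i, U i) := by
    have : ∀ i, Finite (U i) := fun i => hUf2 _
    infer_instance
  refine Nat.card_le_card_of_injective (fun x => ⟨fun i => v x.1 (E.symm i), ?_⟩) ?_
  · have h2 := x.2
    have h3 : {y : Fin (s + e + k) → F |
          (∀ i, eval y (x.1.1.1 i : MvPolynomial (Fin (s + e + k)) F) = 0) ∧
          (∀ i, eval y (x.1.1.2 i : MvPolynomial (Fin (s + e + k)) F) = 0) ∧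
          (∀ i, eval y (x.1.2 i : MvPolynomial (Fin (s + e + k)) F) = 0)} =
        {y : Fin (s + e + k) → F | ∀ i,
          eval y (v x.1 (E.symm i) : MvPolynomial (Fin (s + e + k)) F) = 0} := by
      ext y
      simp only [Set.mem_ofPred_eq]
      constructor
      · rintro ⟨h4, h5, h6⟩ i
        rcases E.symm i with (z | z) | z
        · exact h6 z
        · exact h4 z
        · exact h5 z
      · intro h4
        refine ⟨fun z => ?_, fun z => ?_, fun z => ?_⟩
        · have := h4 (E (Sum.inl (Sum.inr z)))
          rw [E.symm_apply_apply] at this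
          exact this
        · have := h4 (E (Sum.inr z))
          rw [E.symm_apply_apply] at this
          exact this
        · have := h4 (E (Sum.inl (Sum.inl z)))
          rw [E.symm_apply_apply] at this
          exact this
    rw [h3] at h2
    exact h2
  · intro x x' hxx
    have h4 : ∀ i, v x.1 (E.symm i) = v x'.1 (E.symm i) := fun i =>
      congrFun (congrArg Subtype.val hxx) i
    have h5 : ∀ z, v x.1 z = v x'.1 z := by
      intro z
      have := h4 (E z)
      rw [E.symm_apply_apply] at this
      exact this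
    apply Subtype.ext
    apply Prod.ext
    · apply Prod.ext
      · funext z
        exact h5 (Sum.inl (Sum.inr z))
      · funext z
        exact h5 (Sum.inr z)
    · funext z
      exact h5 (Sum.inl (Sum.inl z))

end Pool.Agent.N684.BK
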