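import Pool.Agent.H20.G.R_pool_sql_team_seeded_63374d34.N684.BK.Alg2

/-!
Project BK: the bad event for all families of points.
-/

set_option autoImplicit false

open MvPolynomial

namespace Pool.Agent.N684.BK

/-- the variety -/
def VV {F : Type} [Field F] {N e k : ℕ} {W H : Submodule F (MvPolynomial (Fin N) F)}
    (z : (Fin e → W) × (Fin k → H)) : Set (Fin N → F) :=
  {y | (∀ a, eval y (z.1 a : MvPolynomial (Fin N) F) = 0) ∧
    (∀ a, eval y (z.2 a : MvPolynomial (Fin N) F) = 0)}

theorem badx (hCOM : S_COM) (s e k : ℕ) (hs : 1 ≤ s)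
    (hk : 2 * (s ^ 2 + 2 + k + k * s) ≤ k * (k + 3) * (k + 2)) :
    ∃ C : ℕ, ∀ (F : Type) [Field F] [Fintype F]
    (W H : Submodule F (MvPolynomial (Fin (s + e + k)) F)),
    W = PW F (wD s e k (s ^ 2 + s + 2)) (2 * (s ^ 2 + s + 2)) →
    H = PW F (wD s e k (s ^ 2 + s + 2)) ((s ^ 2 + s + 2) ^ 2) →
    ∀ (n : ℕ) (b : Module.Basis (Fin n) F W) (A : Fin s → Fin (s + e + k) → F), Ind W A →
    Fintype.card F ^ (s ^ 2 + 2 + s * (e + k)) * Nat.card
      {z : ((Fin e → W) × (Fin k → H)) × (Fin n → Fin n → F) // Set.range A ⊆ VV z.1 ∧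
        2 ^ (s + e) * (s ^ 2 + s + 2) ^ (2 * k) < Set.ncard {y : Fin (s + e + k) → F |
          y ∈ VV z.1 ∧
          ∀ i, bil (fun l => (b l : MvPolynomial (Fin (s + e + k)) F)) z.2 (A i) y = 0}} ≤
      C * (Nat.card ((Fin e → W) × (Fin k → H)) * Nat.card (Fin n → Fin n → F)) := by
  obtain ⟨C, hC⟩ := com_apply hCOM s e k hs hk
  refine ⟨C, ?_⟩
  intro F _ _ W H hW hH n b A hA
  have hwt : ∀ i, 1 ≤ wD s e k (s ^ 2 + s + 2) i := by
    intro i
    unfold wD
    split_ifs
    · omega
    · exact le_rfl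
  have hWf : Module.Finite F W := by rw [hW]; exact PW_finite _ hwt _
  have hHf : Module.Finite F H := by rw [hH]; exact PW_finite _ hwt _
  have hWH : W ≤ H := by
    rw [hW, hH]
    refine PW_mono ?_
    nlinarith [Nat.zero_le (s ^ 2 + s)]
  have hvW := van_finite W A
  have hvH := van_finite H A
  have fW := finite_sub W
  have fH := finite_sub H
  have fvW := finite_sub (van W A)
  have fvH := finite_sub (van H A)
  have key := hC F W H hW hH A hA
  set T := 2 ^ (s + e) * (s ^ 2 + s + 2) ^ (2 * k) with hT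
  let Z := (Fin e → van W A) × (Fin k → van H A)
  let p : Z → (Fin s → W) → Prop := fun x g => T < Set.ncard {y : Fin (s + e + k) → F |
          (∀ i, eval y (x.1 i : MvPolynomial (Fin (s + e + k)) F) = 0) ∧
          (∀ i, eval y (x.2 i : MvPolynomial (Fin (s + e + k)) F) = 0) ∧
          (∀ i, eval y (g i : MvPolynomial (Fin (s + e + k)) F) = 0)}
  have hfib := card_fib (Z := Z) (gm b A) (gm_surj b hA) p
  have e1 : {z : ((Fin e → W) × (Fin k → H)) × (Fin n → Fin n → F) // Set.range A ⊆ VV z.1 ∧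
        T < Set.ncard {y : Fin (s + e + k) → F |
          y ∈ VV z.1 ∧
          ∀ i, bil (fun l => (b l : MvPolynomial (Fin (s + e + k)) F)) z.2 (A i) y = 0}} ≃
      {z : Z × (Fin n → Fin n → F) // p z.1 (gm b A z.2)} :=
    { toFun := fun z => ⟨((fun a => ⟨z.1.1.1 a, mem_van.2 ⟨(z.1.1.1 a).2, fun i =>
          (z.2.1 ⟨i, rfl⟩).1 a⟩⟩, fun a => ⟨z.1.1.2 a, mem_van.2 ⟨(z.1.1.2 a).2, fun i =>
          (z.2.1 ⟨i, rfl⟩).2 a⟩⟩), z.1.2), by
            have h2 := z.2.2
            have h3 : {y : Fin (s + e + k) → F | y ∈ VV z.1.1 ∧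
              ∀ i, bil (fun l => (b l : MvPolynomial (Fin (s + e + k)) F)) z.1.2 (A i) y = 0} =
              {y : Fin (s + e + k) → F |
                (∀ i, eval y (z.1.1.1 i : MvPolynomial (Fin (s + e + k)) F) = 0) ∧
                (∀ i, eval y (z.1.1.2 i : MvPolynomial (Fin (s + e + k)) F) = 0) ∧
                (∀ i, eval y (gm b A z.1.2 i : MvPolynomial (Fin (s + e + k)) F) = 0)} := by
              ext y
              simp only [Set.mem_ofPred_eq, eval_gm, VV, and_assoc]
            rw [h3] at h2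
            exact h2⟩
      invFun := fun z => ⟨((fun a => ⟨z.1.1.1 a, (mem_van.1 (z.1.1.1 a).2).1⟩,
          fun a => ⟨z.1.1.2 a, (mem_van.1 (z.1.1.2 a).2).1⟩), z.1.2), by
            rintro _ ⟨i, rfl⟩
            exact ⟨fun a => (mem_van.1 (z.1.1.1 a).2).2 i, fun a => (mem_van.1 (z.1.1.2 a).2).2 i⟩,
          by
            have h2 : T < Set.ncard {y : Fin (s + e + k) → F |
                (∀ i, eval y (z.1.1.1 i : MvPolynomial (Fin (s + e + k)) F) = 0) ∧
                (∀ i, eval y (z.1.1.2 i : MvPolynomial (Fin (s + e + k)) F) = 0) ∧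
                (∀ i, eval y (gm b A z.1.2 i : MvPolynomial (Fin (s + e + k)) F) = 0)} := z.2
            simp only [eval_gm] at h2
            show T < Set.ncard {y : Fin (s + e + k) → F | y ∈ VV _ ∧
              ∀ i, bil (fun l => (b l : MvPolynomial (Fin (s + e + k)) F)) z.1.2 (A i) y = 0}
            simp only [VV, Set.mem_ofPred_eq, and_assoc]
            exact h2⟩
      left_inv := fun z => rfl
      right_inv := fun z => rfl }
  rw [Nat.card_congr e1]
  have e2 : Nat.card {z : Z × (Fin s → W) // p z.1 z.2} = Nat.card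
      {x : ((Fin e → van W A) × (Fin k → van H A)) × (Fin s → W) //
        T < Set.ncard {y : Fin (s + e + k) → F |
          (∀ i, eval y (x.1.1 i : MvPolynomial (Fin (s + e + k)) F) = 0) ∧
          (∀ i, eval y (x.1.2 i : MvPolynomial (Fin (s + e + k)) F) = 0) ∧
          (∀ i, eval y (x.2 i : MvPolynomial (Fin (s + e + k)) F) = 0)}} := rfl
  rw [← e2] at key
  have h1 := card_van hA
  have h2 := card_van (hA.mono hWH)
  rw [Fintype.card_fin] at h1 h2
  have hWpos : 0 < Nat.card W := Nat.card_pos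
  have h3 : Nat.card (Fin s → W) = Nat.card W ^ s := by
    rw [Nat.card_fun, Nat.card_eq_fintype_card (α := Fin s), Fintype.card_fin]
  have h4 : Nat.card ((Fin e → W) × (Fin k → H)) = Nat.card W ^ e * Nat.card H ^ k := by
    rw [Nat.card_prod, Nat.card_fun, Nat.card_fun, Nat.card_eq_fintype_card (α := Fin e),
      Fintype.card_fin, Nat.card_eq_fintype_card (α := Fin k), Fintype.card_fin]
  rw [h3] at hfib
  rw [h4]
  have hpos : 0 < Nat.card W ^ s := Nat.pow_pos hWpos
  refine Nat.le_of_mul_le_mul_right ?_ hpos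
  calc Fintype.card F ^ (s ^ 2 + 2 + s * (e + k)) *
        Nat.card {z : Z × (Fin n → Fin n → F) // p z.1 (gm b A z.2)} * Nat.card W ^ s
      = Fintype.card F ^ (s * (e + k)) * (Fintype.card F ^ (s ^ 2 + 2) *
        (Nat.card {z : Z × (Fin n → Fin n → F) // p z.1 (gm b A z.2)} * Nat.card W ^ s)) := by
        rw [pow_add]; ring
    _ = Fintype.card F ^ (s * (e + k)) * ((Fintype.card F ^ (s ^ 2 + 2) *
        Nat.card {z : Z × (Fin s → W) // p z.1 z.2}) * Nat.card (Fin n → Fin n → F)) := by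
        rw [hfib]; ring
    _ ≤ Fintype.card F ^ (s * (e + k)) * ((C * (Nat.card (van W A) ^ e *
        Nat.card (van H A) ^ k * Nat.card W ^ s)) * Nat.card (Fin n → Fin n → F)) := by
        gcongr
    _ = C * ((Nat.card (van W A) * Fintype.card F ^ s) ^ e *
        (Nat.card (van H A) * Fintype.card F ^ s) ^ k * Nat.card (Fin n → Fin n → F)) *
        Nat.card W ^ s := by
        rw [mul_add, pow_add, pow_mul, pow_mul, mul_pow, mul_pow]; ring
    _ = C * (Nat.card W ^ e * Nat.card H ^ k * Nat.card (Fin n → Fin n → F)) *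
        Nat.card W ^ s := by
        rw [h1, h2]

/-- the bad event -/
def Bad {F : Type} [Field F] {N e k s n : ℕ} (T : ℕ)
    {W H : Submodule F (MvPolynomial (Fin N) F)} (b : Module.Basis (Fin n) F W)
    (z : (Fin e → W) × (Fin k → H)) (a : Fin n → Fin n → F) : Prop :=
  ∃ A : Fin s → Fin N → F, Ind W A ∧ Set.range A ⊆ VV z ∧
    (T < Set.ncard {y : Fin N → F | y ∈ VV z ∧
      ∀ i, bil (fun l => (b l : MvPolynomial (Fin N) F)) a (A i) y = 0} ∨
    T < Set.ncard {y : Fin N → F | y ∈ VV z ∧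
      ∀ i, bil (fun l => (b l : MvPolynomial (Fin N) F)) a y (A i) = 0})

theorem bad_card (hCOM : S_COM) (s e k : ℕ) (hs : 1 ≤ s)
    (hk : 2 * (s ^ 2 + 2 + k + k * s) ≤ k * (k + 3) * (k + 2)) :
    ∃ C : ℕ, ∀ (F : Type) [Field F] [Fintype F]
    (W H : Submodule F (MvPolynomial (Fin (s + e + k)) F)),
    W = PW F (wD s e k (s ^ 2 + s + 2)) (2 * (s ^ 2 + s + 2)) →
    H = PW F (wD s e k (s ^ 2 + s + 2)) ((s ^ 2 + s + 2) ^ 2) →
    ∀ (n : ℕ) (b : Module.Basis (Fin n) F W),
    Fintype.card F ^ 2 * Nat.card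
      {z : ((Fin e → W) × (Fin k → H)) × (Fin n → Fin n → F) //
        Bad (s := s) (2 ^ (s + e) * (s ^ 2 + s + 2) ^ (2 * k)) b z.1 z.2} ≤
      C * (Nat.card ((Fin e → W) × (Fin k → H)) * Nat.card (Fin n → Fin n → F)) := by
  classical
  obtain ⟨C, hC⟩ := badx hCOM s e k hs hk
  refine ⟨2 * C, ?_⟩
  intro F _ _ W H hW hH n b
  have hwt : ∀ i, 1 ≤ wD s e k (s ^ 2 + s + 2) i := by
    intro i
    unfold wD
    split_ifs
    · omega
    · exact le_rfl
  have hWf : Module.Finite F W := by rw [hW]; exact PW_finite _ hwt _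
  have hHf : Module.Finite F H := by rw [hH]; exact PW_finite _ hwt _
  have fW := finite_sub W
  have fH := finite_sub H
  have key := hC F W H hW hH n b
  set T := 2 ^ (s + e) * (s ^ 2 + s + 2) ^ (2 * k) with hT
  let Ω := ((Fin e → W) × (Fin k → H)) × (Fin n → Fin n → F)
  let P1 : (Fin s → Fin (s + e + k) → F) → Ω → Prop := fun A z => Set.range A ⊆ VV z.1 ∧
        T < Set.ncard {y : Fin (s + e + k) → F | y ∈ VV z.1 ∧
          ∀ i, bil (fun l => (b l : MvPolynomial (Fin (s + e + k)) F)) z.2 (A i) y = 0}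
  let P2 : (Fin s → Fin (s + e + k) → F) → Ω → Prop := fun A z => Set.range A ⊆ VV z.1 ∧
        T < Set.ncard {y : Fin (s + e + k) → F | y ∈ VV z.1 ∧
          ∀ i, bil (fun l => (b l : MvPolynomial (Fin (s + e + k)) F)) z.2 y (A i) = 0}
  have h1 : ∀ A, Ind W A → Fintype.card F ^ (s ^ 2 + 2 + s * (e + k)) *
      Nat.card {z : Ω // P1 A z} ≤
      C * (Nat.card ((Fin e → W) × (Fin k → H)) * Nat.card (Fin n → Fin n → F)) :=
    fun A hA => key A hA
  have h2 : ∀ A, Ind W A → Fintype.card F ^ (s ^ 2 + 2 + s * (e + k)) *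
      Nat.card {z : Ω // P2 A z} ≤
      C * (Nat.card ((Fin e → W) × (Fin k → H)) * Nat.card (Fin n → Fin n → F)) := by
    intro A hA
    refine le_trans (le_of_eq ?_) (key A hA)
    congr 1
    refine Nat.card_congr
      { toFun := fun z => ⟨(z.1.1, fun l m => z.1.2 m l), z.2.1, ?_⟩
        invFun := fun z => ⟨(z.1.1, fun l m => z.1.2 m l), z.2.1, ?_⟩
        left_inv := fun z => rfl
        right_inv := fun z => rfl }
    · have h3 := z.2.2
      simp only [bil_swap]
      exact h3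
    · have h3 := z.2.2
      show T < Set.ncard {y : Fin (s + e + k) → F | y ∈ VV z.1.1 ∧
          ∀ i, bil (fun l => (b l : MvPolynomial (Fin (s + e + k)) F))
            (fun l m => z.1.2 m l) y (A i) = 0}
      simp only [bil_swap]
      exact h3
  have h5 : Nat.card {z : Ω // Bad (s := s) T b z.1 z.2} ≤
      ∑ A : Fin s → Fin (s + e + k) → F, (if Ind W A then
        Nat.card {z : Ω // P1 A z} + Nat.card {z : Ω // P2 A z} else 0) := by
    have hsub : {z : Ω | Bad (s := s) T b z.1 z.2} ⊆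
        ⋃ A ∈ (Finset.univ : Finset (Fin s → Fin (s + e + k) → F)).filter (fun A => Ind W A),
          ({z : Ω | P1 A z} ∪ {z : Ω | P2 A z}) := by
      rintro z ⟨A, hA, h3, h4⟩
      rw [Set.mem_iUnion₂]
      refine ⟨A, Finset.mem_filter.2 ⟨Finset.mem_univ _, hA⟩, ?_⟩
      rcases h4 with h4 | h4
      · exact Or.inl ⟨h3, h4⟩
      · exact Or.inr ⟨h3, h4⟩
    have h6 := Set.ncard_le_ncard hsub (Set.toFinite _)
    have h7 : Nat.card {z : Ω // Bad (s := s) T b z.1 z.2} =
        Set.ncard {z : Ω | Bad (s := s) T b z.1 z.2} := rfl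
    rw [h7]
    refine h6.trans ?_
    refine (Finset.set_ncard_biUnion_le _ _).trans ?_
    rw [Finset.sum_filter]
    refine Finset.sum_le_sum fun A _ => ?_
    split_ifs
    · exact Set.ncard_union_le _ _
    · exact le_rfl
  have hcardA : Fintype.card (Fin s → Fin (s + e + k) → F) =
      Fintype.card F ^ (s ^ 2 + s * (e + k)) := by
    rw [Fintype.card_fun, Fintype.card_fun, Fintype.card_fin, Fintype.card_fin, ← pow_mul]
    congr 1
    ring
  have hq : 0 < Fintype.card F := Fintype.card_pos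
  have hpos : 0 < Fintype.card F ^ (s ^ 2 + s * (e + k)) := Nat.pow_pos hq
  refine Nat.le_of_mul_le_mul_left ?_ hpos
  calc Fintype.card F ^ (s ^ 2 + s * (e + k)) * (Fintype.card F ^ 2 *
        Nat.card {z : Ω // Bad (s := s) T b z.1 z.2})
      = Fintype.card F ^ (s ^ 2 + 2 + s * (e + k)) *
        Nat.card {z : Ω // Bad (s := s) T b z.1 z.2} := by
        rw [← mul_assoc, ← pow_add]
        congr 2
        ring
    _ ≤ Fintype.card F ^ (s ^ 2 + 2 + s * (e + k)) *
        ∑ A : Fin s → Fin (s + e + k) → F, (if Ind W A then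
        Nat.card {z : Ω // P1 A z} + Nat.card {z : Ω // P2 A z} else 0) :=
        Nat.mul_le_mul_left _ h5
    _ = ∑ A : Fin s → Fin (s + e + k) → F, Fintype.card F ^ (s ^ 2 + 2 + s * (e + k)) *
        (if Ind W A then Nat.card {z : Ω // P1 A z} + Nat.card {z : Ω // P2 A z} else 0) :=
        Finset.mul_sum _ _ _
    _ ≤ ∑ A : Fin s → Fin (s + e + k) → F, 2 * C *
        (Nat.card ((Fin e → W) × (Fin k → H)) * Nat.card (Fin n → Fin n → F)) := by
        refine Finset.sum_le_sum fun A _ => ?_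
        split_ifs with hA
        · have h8 := h1 A hA
          have h9 := h2 A hA
          rw [mul_add]
          calc _ ≤ C * (Nat.card ((Fin e → W) × (Fin k → H)) * Nat.card (Fin n → Fin n → F)) +
                C * (Nat.card ((Fin e → W) × (Fin k → H)) * Nat.card (Fin n → Fin n → F)) :=
                Nat.add_le_add h8 h9
            _ = _ := by ring
        · rw [mul_zero]
          exact Nat.zero_le _
    _ = Fintype.card F ^ (s ^ 2 + s * (e + k)) * (2 * C *
        (Nat.card ((Fin e → W) × (Fin k → H)) * Nat.card (Fin n → Fin n → F))) := by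
        rw [Finset.sum_const, Finset.card_univ, hcardA, smul_eq_mul]

end Pool.Agent.N684.BK
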